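import Mathlib
import Pool.Agent.Y314.CT.Stm

set_option autoImplicit false

/-! Project CT, tasks RD and CNT: rounding and counting of integral points. -/

namespace Pool.Agent.Y815.CT

open Pool.Agent.Y314.CT

variable {t : ℝ}

/-- the rounded horizontal part -/
noncomputable def rv (g : NT t) : Fin 4 → ℤ × ℤ := fun i => (round (g.v i).1, round (g.v i).2)

/-- the rounded horizontal part as a vector -/
noncomputable def pv (g : NT t) : HV := fun i => (((rv g i).1 : ℝ), ((rv g i).2 : ℝ))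

/-- rounding -/
noncomputable def rd (g : NT t) : Pt :=
  (rv g, (round (g.z - (1 / 2 : ℝ) • om t (pv g) g.v).1,
    round (g.z - (1 / 2 : ℝ) • om t (pv g) g.v).2))

theorem io_rd_v (g : NT t) : (io t (rd g)).v = pv g := rfl

theorem dd_rd (g : NT t) : dd (io t (rd g)) g ≤ 1 / 2 := by
  unfold dd
  have ht := abs_nonneg t
  refine nn_le (by norm_num) ?_ ?_
  · rw [inv_mul_v, io_rd_v, pi_norm_le_iff_of_nonneg (by norm_num)]
    intro i
    refine max_le ?_ ?_
    · show |(g.v i).1 - (round (g.v i).1 : ℝ)| ≤ 1 / 2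
      exact abs_sub_round _
    · show |(g.v i).2 - (round (g.v i).2 : ℝ)| ≤ 1 / 2
      exact abs_sub_round _
  · rw [inv_mul_z, io_rd_v]
    have h1 : g.z - (io t (rd g)).z - (1 / 2 : ℝ) • om t (pv g) g.v =
        (g.z - (1 / 2 : ℝ) • om t (pv g) g.v) - (io t (rd g)).z := by abel
    rw [h1]
    have h2 : ‖(g.z - (1 / 2 : ℝ) • om t (pv g) g.v) - (io t (rd g)).z‖ ≤ 1 / 2 := by
      refine max_le ?_ ?_
      · show |(g.z - (1 / 2 : ℝ) • om t (pv g) g.v).1 -
          (round (g.z - (1 / 2 : ℝ) • om t (pv g) g.v).1 : ℝ)| ≤ 1 / 2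
        exact abs_sub_round _
      · show |(g.z - (1 / 2 : ℝ) • om t (pv g) g.v).2 -
          (round (g.z - (1 / 2 : ℝ) • om t (pv g) g.v).2 : ℝ)| ≤ 1 / 2
        exact abs_sub_round _
    linarith

theorem rd_io (q : Pt) : rd (io t q) = q := by
  have h1 : rv (io t q) = q.1 := by
    funext i
    refine Prod.ext ?_ ?_
    · exact round_intCast _
    · exact round_intCast _
  have h2 : pv (io t q) = (io t q).v := by
    funext i
    show (((rv (io t q) i).1 : ℝ), ((rv (io t q) i).2 : ℝ)) = _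
    rw [h1]
    rfl
  unfold rd
  rw [h1, h2, om_self, smul_zero, sub_zero]
  refine Prod.ext rfl (Prod.ext ?_ ?_)
  · exact round_intCast _
  · exact round_intCast _

theorem t_RD : S_RD := fun _ => ⟨rd, dd_rd, rd_io⟩

theorem box1 {x : ℤ} {y : ℝ} {R : ℕ} (h : |(x : ℝ) - y| ≤ R) :
    x - ⌊y⌋ ∈ Finset.Icc (-(R : ℤ)) (R + 1) := by
  obtain ⟨h1, h2⟩ := abs_le.1 h
  have h3 := Int.floor_le y
  have h4 := Int.lt_floor_add_one y
  rw [Finset.mem_Icc]
  constructor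
  · have : ((-(R : ℤ) : ℤ) : ℝ) ≤ ((x - ⌊y⌋ : ℤ) : ℝ) := by
      push_cast
      linarith
    exact_mod_cast this
  · have : ((x - ⌊y⌋ : ℤ) : ℝ) < ((R + 2 : ℤ) : ℝ) := by
      push_cast
      linarith
    have h5 : x - ⌊y⌋ < (R : ℤ) + 2 := by exact_mod_cast this
    omega

/-- the central centre of the box -/
noncomputable def zc (g : NT t) (q : Pt) : ZV := g.z + (1 / 2 : ℝ) • om t g.v (io t q).v

/-- the map into the box -/
noncomputable def mp (g : NT t) (q : Pt) : Pt :=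
  (fun i => ((q.1 i).1 - ⌊(g.v i).1⌋, (q.1 i).2 - ⌊(g.v i).2⌋),
    (q.2.1 - ⌊(zc g q).1⌋, q.2.2 - ⌊(zc g q).2⌋))

theorem mp_inj (g : NT t) : Function.Injective (mp g) := by
  intro q q' h
  have h1 : q.1 = q'.1 := by
    funext i
    have h2 := congrFun (congrArg Prod.fst h) i
    have h3 : (q.1 i).1 - ⌊(g.v i).1⌋ = (q'.1 i).1 - ⌊(g.v i).1⌋ := congrArg Prod.fst h2
    have h4 : (q.1 i).2 - ⌊(g.v i).2⌋ = (q'.1 i).2 - ⌊(g.v i).2⌋ := congrArg Prod.snd h2
    exact Prod.ext (sub_left_injective h3) (sub_left_injective h4)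
  have h5 : zc g q = zc g q' := by
    unfold zc io
    simp only [h1]
  have h6 := congrArg Prod.snd h
  have h7 : q.2.1 - ⌊(zc g q).1⌋ = q'.2.1 - ⌊(zc g q').1⌋ := congrArg Prod.fst h6
  have h8 : q.2.2 - ⌊(zc g q).2⌋ = q'.2.2 - ⌊(zc g q').2⌋ := congrArg Prod.snd h6
  rw [h5] at h7 h8
  exact Prod.ext h1 (Prod.ext (sub_left_injective h7) (sub_left_injective h8))

/-- the box -/
noncomputable def bx (r m : ℕ) : Finset Pt :=
  (Fintype.piFinset fun _ : Fin 4 => Finset.Icc (-(r : ℤ)) (r + 1) ×ˢ Finset.Icc (-(r : ℤ)) (r + 1))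
    ×ˢ (Finset.Icc (-(m : ℤ)) (m + 1) ×ˢ Finset.Icc (-(m : ℤ)) (m + 1))

theorem card_bx (r m : ℕ) : (bx r m).card = (2 * r + 2) ^ 8 * (2 * m + 2) ^ 2 := by
  have h : ∀ k : ℕ, (Finset.Icc (-(k : ℤ)) (k + 1)).card = 2 * k + 2 := by
    intro k
    rw [Int.card_Icc]
    omega
  unfold bx
  rw [Finset.card_product, Finset.card_product, Fintype.card_piFinset]
  simp only [Finset.card_product, h, Finset.prod_const, Finset.card_univ, Fintype.card_fin]
  ring

theorem t_CNT : S_CNT := by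
  intro t
  set M : ℕ := ⌈3 + |t|⌉₊ with hM
  have hMt : 3 + |t| ≤ M := Nat.le_ceil _
  refine ⟨2 ^ 8 * 4 * (M + 1) ^ 2, fun g r => ?_⟩
  have hmaps : ∀ q ∈ {q : Pt | dd g (io t q) ≤ (r : ℝ)}, mp g q ∈ bx r (M * r ^ 2) := by
    intro q hq
    have hq' : dd g (io t q) ≤ (r : ℝ) := hq
    have hv := norm_v_le (g⁻¹ * io t q)
    have hz := norm_z_le (g⁻¹ * io t q)
    rw [inv_mul_v] at hv
    rw [inv_mul_z] at hz
    have hv' : ‖(io t q).v - g.v‖ ≤ r := hv.trans hq'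
    have hz' : ‖(io t q).z - g.z - (1 / 2 : ℝ) • om t g.v (io t q).v‖ ≤ ((M * r ^ 2 : ℕ) : ℝ) := by
      refine hz.trans ?_
      push_cast
      have h1 : nn (g⁻¹ * io t q) ^ 2 ≤ (r : ℝ) ^ 2 := pow_le_pow_left₀ (nn_nonneg _) hq' 2
      exact mul_le_mul hMt h1 (by positivity) (Nat.cast_nonneg _)
    have hz2 : ‖(io t q).z - zc g q‖ ≤ ((M * r ^ 2 : ℕ) : ℝ) := by
      have : (io t q).z - zc g q = (io t q).z - g.z - (1 / 2 : ℝ) • om t g.v (io t q).v := by
        unfold zc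
        abel
      rw [this]
      exact hz'
    unfold bx
    rw [Finset.mem_product, Finset.mem_product, Fintype.mem_piFinset]
    refine ⟨fun i => ?_, ?_, ?_⟩
    · have h1 := (norm_le_pi_norm ((io t q).v - g.v) i).trans hv'
      rw [Finset.mem_product]
      constructor
      · exact box1 ((norm_fst_le (((io t q).v - g.v) i)).trans h1)
      · exact box1 ((norm_snd_le (((io t q).v - g.v) i)).trans h1)
    · exact box1 ((norm_fst_le ((io t q).z - zc g q)).trans hz2)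
    · exact box1 ((norm_snd_le ((io t q).z - zc g q)).trans hz2)
  have hfin : {q : Pt | dd g (io t q) ≤ (r : ℝ)}.Finite := by
    refine Set.Finite.subset ((bx r (M * r ^ 2)).finite_toSet.preimage (mp_inj g).injOn) ?_
    intro q hq
    exact hmaps q hq
  refine ⟨hfin, ?_⟩
  have h1 : {q : Pt | dd g (io t q) ≤ (r : ℝ)}.ncard ≤ ((bx r (M * r ^ 2) : Finset Pt) : Set Pt).ncard :=
    Set.ncard_le_ncard_of_injOn (mp g) hmaps (mp_inj g).injOn (Finset.finite_toSet _)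
  rw [Set.ncard_coe_finset, card_bx] at h1
  refine h1.trans ?_
  have h2 : M * r ^ 2 + 1 ≤ (M + 1) * (r + 1) ^ 2 := by nlinarith [Nat.zero_le M, Nat.zero_le r]
  calc (2 * r + 2) ^ 8 * (2 * (M * r ^ 2) + 2) ^ 2
      = 2 ^ 8 * (r + 1) ^ 8 * (4 * (M * r ^ 2 + 1) ^ 2) := by ring
    _ ≤ 2 ^ 8 * (r + 1) ^ 8 * (4 * ((M + 1) * (r + 1) ^ 2) ^ 2) := by gcongr
    _ = 2 ^ 8 * 4 * (M + 1) ^ 2 * (r + 1) ^ 12 := by ring

end Pool.Agent.Y815.CT
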